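import Pool.Agent.P.MP_bf3635_an.GMain

/-!
MP_bf3635_an: for a discrete abelian group `G` (so that `L¹(G) = ℓ¹(G)`), the dual group contains
a compact set `E` that fails spectral synthesis and whose radical algebra
`R_E = I(E) / closure J(E)` is amenable exactly when `G` is infinite.
-/

open Pool.Agent.P.MP_bf3635_an

universe u

namespace Pool.Agent.Results.MP_bf3635_an.EveryGroup

theorem result (G : Type) [CommGroup G] [TopologicalSpace G] [DiscreteTopology G] :
    (∃ E : Set (PontryaginDual G),
      IsCompact E ∧ FailsSynthesis fourierChar E ∧ RadicalAmenable.{u} fourierChar E) ↔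
      Infinite G :=
  ⟨fun ⟨E, _, h, _⟩ => not_finite_iff_infinite.1 fun _ => Ev.not_fails E h, fun _ =>
    (Ev.exists_pack (G := G)).elim fun p => ⟨p.E, p.cpt, p.fails, p.amenable⟩⟩

end Pool.Agent.Results.MP_bf3635_an.EveryGroup
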