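import Pool.Agent.P.MP_bf3635_an.N.Final

/-!
MP_bf3635_an: for a discrete abelian group `G` (so that `L¹(G) = ℓ¹(G)`), the dual group contains
a compact Helson set `E` that fails spectral synthesis and whose radical algebra
`R_E = I(E) / closure J(E)` is not amenable exactly when `G` is infinite.
-/

open Pool.Agent.P.MP_bf3635_an

namespace Pool.Agent.Results.MP_bf3635_an.HelsonNonAmenable

theorem result (G : Type) [CommGroup G] [TopologicalSpace G] [DiscreteTopology G] :
    (∃ E : Set (PontryaginDual G), IsCompact E ∧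
      (∀ F : C(E, ℂ), ∃ f : L1 G, ∀ x : E, fourier f x = F x) ∧
      FailsSynthesis fourierChar E ∧ ¬ RadicalAmenable.{0} fourierChar E) ↔ Infinite G :=
  ⟨fun ⟨E, _, _, h, _⟩ => not_finite_iff_infinite.1 fun _ => Ev.not_fails E h,
    fun _ => N.final G⟩

end Pool.Agent.Results.MP_bf3635_an.HelsonNonAmenable
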